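import Pool.Graph.R_seed8.H52R3.Cyl13

set_option autoImplicit false
set_option linter.unusedSectionVars false

/-!
# The mass of the slope space
-/

namespace Pool.Agent.H44.HR

open MeasureTheory Set Metric Module
open scoped ENNReal Real Pointwise
open Pool.Agent.H52R3.Cyl

section integral

variable {U W : Type*} [NormedAddCommGroup U] [InnerProductSpace ℝ U] [FiniteDimensional ℝ U]
  [MeasurableSpace U] [BorelSpace U] [NormedAddCommGroup W] [InnerProductSpace ℝ W]
  [FiniteDimensional ℝ W] [MeasurableSpace W] [BorelSpace W]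

/-- the weight `(1 + |q|²)^{-n/2}` -/
noncomputable def wt (n : ℕ) (q : U) : ℝ := (√(1 + ‖q‖ ^ 2))⁻¹ ^ n

theorem wt_pos (n : ℕ) (q : U) : 0 < wt n q := by
  unfold wt
  have : 0 < √(1 + ‖q‖ ^ 2) := Real.sqrt_pos.mpr (by positivity)
  positivity

theorem continuous_wt (n : ℕ) : Continuous (fun q : U => wt n q) := by
  unfold wt
  have h : ∀ q : U, √(1 + ‖q‖ ^ 2) ≠ 0 := fun q => (Real.sqrt_pos.mpr (by positivity)).ne'
  exact (Continuous.inv₀ (by fun_prop) h).pow n

theorem volume_prod_ball (hk : 0 < finrank ℝ W) :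
    volume {p : W × U | ‖p.1‖ ^ 2 + ‖p.2‖ ^ 2 ≤ 1} =
      ENNReal.ofReal (kap (finrank ℝ W + finrank ℝ U)) := by
  have h1 := WithLp.volume_preserving_ofLp W U
  have hS : MeasurableSet {p : W × U | ‖p.1‖ ^ 2 + ‖p.2‖ ^ 2 ≤ 1} :=
    (isClosed_le (by fun_prop) (by fun_prop)).measurableSet
  have h2 := h1.measure_preimage hS.nullMeasurableSet
  rw [← h2]
  have hfr : finrank ℝ (WithLp 2 (W × U)) = finrank ℝ W + finrank ℝ U := by
    rw [(WithLp.linearEquiv 2 ℝ (W × U)).finrank_eq, finrank_prod]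
  have h3 : (@WithLp.ofLp 2 (W × U)) ⁻¹' {p : W × U | ‖p.1‖ ^ 2 + ‖p.2‖ ^ 2 ≤ 1} =
      closedBall (0 : WithLp 2 (W × U)) 1 := by
    ext x
    rw [mem_closedBall_zero_iff, mem_preimage, mem_ofPred_eq]
    have h4 : ‖x‖ ^ 2 = ‖x.ofLp.1‖ ^ 2 + ‖x.ofLp.2‖ ^ 2 := WithLp.prod_norm_sq_eq_of_L2 x
    rw [← h4]
    exact sq_le_one_iff₀ (norm_nonneg _)
  have : Nontrivial (WithLp 2 (W × U)) :=
    Module.nontrivial_of_finrank_pos (R := ℝ) (by rw [hfr]; omega)
  rw [h3, Measure.addHaar_closedBall_eq_addHaar_ball,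
    volume_ball_kap (by rw [hfr]; omega), hfr]

theorem inner_integral (hk : 0 < finrank ℝ W) (m : ℕ) {t : ℝ} (ht : 0 ≤ t) :
    ∫⁻ a : W, (fun r : ℝ => (Iic t).indicator (fun r => ENNReal.ofReal (r ^ m)) r) ‖a‖ =
      ENNReal.ofReal (finrank ℝ W * kap (finrank ℝ W) / (finrank ℝ W + m) *
        t ^ (finrank ℝ W + m)) := by
  have : Nontrivial W := Module.nontrivial_of_finrank_pos (R := ℝ) hk
  set k := finrank ℝ W with hkdef
  rw [lintegral_norm (E := W) _ (Measurable.indicator (by fun_prop) measurableSet_Iic)]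
  have h1 : ∀ y ∈ Ioi (0 : ℝ), ENNReal.ofReal (y ^ (k - 1)) * (Iic t).indicator
      (fun r => ENNReal.ofReal (r ^ m)) y =
      (Iic t).indicator (fun r => ENNReal.ofReal (r ^ (m + k - 1))) y := by
    intro y hy
    have hy0 : (0 : ℝ) < y := hy
    by_cases h : y ≤ t
    · rw [indicator_of_mem (show y ∈ Iic t from h), indicator_of_mem (show y ∈ Iic t from h),
        ← ENNReal.ofReal_mul (by positivity), ← pow_add]
      congr 2
      omega
    · rw [indicator_of_notMem (show y ∉ Iic t from h),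
        indicator_of_notMem (show y ∉ Iic t from h), mul_zero]
  have h2 : Iic t ∩ Ioi 0 = Ioc 0 t := by
    ext x
    simp only [mem_inter_iff, mem_Iic, mem_Ioi, mem_Ioc]
    tauto
  rw [← hkdef, setLIntegral_congr_fun measurableSet_Ioi h1,
    setLIntegral_indicator measurableSet_Iic, h2, ← ofReal_integral_eq_lintegral_ofReal]
  · rw [← intervalIntegral.integral_of_le ht, integral_pow]
    have h3 : ((m + k - 1 : ℕ) : ℝ) + 1 = (k : ℝ) + m := by
      have : m + k - 1 + 1 = k + m := by omega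
      exact_mod_cast this
    have h4 : m + k - 1 + 1 = k + m := by omega
    rw [h3, h4, zero_pow (by omega), sub_zero, volume_ball_kap hk, ← hkdef,
      ← ENNReal.ofReal_natCast, ← ENNReal.ofReal_mul (by positivity),
      ← ENNReal.ofReal_mul (mul_nonneg (by positivity) (kap_pos _).le)]
    congr 1
    ring
  · exact (Continuous.integrableOn_Ioc (by fun_prop))
  · filter_upwards [ae_restrict_mem measurableSet_Ioc] with x hx
    have := hx.1.le
    positivity

variable (U W) in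
theorem mass (hk : 0 < finrank ℝ W) (hm : 0 < finrank ℝ U) :
    ∫⁻ q : U, ENNReal.ofReal (wt (finrank ℝ W + finrank ℝ U) q) =
      ENNReal.ofReal (kap (finrank ℝ U) * (kap (finrank ℝ W + finrank ℝ U) /
        aa (finrank ℝ W + finrank ℝ U) (finrank ℝ W))) := by
  have : Nontrivial W := Module.nontrivial_of_finrank_pos (R := ℝ) hk
  have hvol := volume_prod_ball (U := U) (W := W) hk
  set k := finrank ℝ W with hkdef
  set m := finrank ℝ U with hmdef
  have hS : MeasurableSet {p : W × U | ‖p.1‖ ^ 2 + ‖p.2‖ ^ 2 ≤ 1} :=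
    (isClosed_le (by fun_prop) (by fun_prop)).measurableSet
  rw [Measure.volume_eq_prod, Measure.prod_apply hS] at hvol
  let T : Set (W × U) := {p : W × U | ‖p.1‖ ^ 2 * (1 + ‖p.2‖ ^ 2) ≤ 1}
  have hT : MeasurableSet T := (isClosed_le (by fun_prop) (by fun_prop)).measurableSet
  have h1 : ∫⁻ a : W, volume (Prod.mk a ⁻¹' {p : W × U | ‖p.1‖ ^ 2 + ‖p.2‖ ^ 2 ≤ 1}) =
      ∫⁻ a : W, ∫⁻ q : U, T.indicator (fun p => ENNReal.ofReal (‖p.1‖ ^ m)) (a, q) := by
    have h0 : ∀ᵐ a : W ∂volume, a ≠ 0 := by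
      have := measure_singleton (μ := (volume : Measure W)) 0
      rw [← compl_compl ({0} : Set W)] at this
      exact this
    refine lintegral_congr_ae ?_
    filter_upwards [h0] with a ha
    have hna : 0 < ‖a‖ := norm_pos_iff.mpr ha
    have h2 : Prod.mk a ⁻¹' {p : W × U | ‖p.1‖ ^ 2 + ‖p.2‖ ^ 2 ≤ 1} =
        ‖a‖ • (Prod.mk a ⁻¹' T) := by
      ext b
      rw [Set.mem_smul_set_iff_inv_smul_mem₀ hna.ne']
      simp only [T, mem_preimage, mem_ofPred_eq, norm_smul, norm_inv, norm_norm]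
      have : ‖a‖ ^ 2 * (1 + (‖a‖⁻¹ * ‖b‖) ^ 2) = ‖a‖ ^ 2 + ‖b‖ ^ 2 := by
        field_simp
      rw [this]
    rw [h2, Measure.addHaar_smul, abs_of_nonneg (by positivity), ← hmdef]
    have h3 : ∀ q : U, T.indicator (fun p => ENNReal.ofReal (‖p.1‖ ^ m)) (a, q) =
        (Prod.mk a ⁻¹' T).indicator (fun _ => ENNReal.ofReal (‖a‖ ^ m)) q := fun q => rfl
    simp_rw [h3]
    rw [lintegral_indicator (hT.preimage measurable_prodMk_left), setLIntegral_const]
  have h4 : ∫⁻ a : W, ∫⁻ q : U, T.indicator (fun p => ENNReal.ofReal (‖p.1‖ ^ m)) (a, q) =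
      ∫⁻ q : U, ∫⁻ a : W, T.indicator (fun p => ENNReal.ofReal (‖p.1‖ ^ m)) (a, q) := by
    refine lintegral_lintegral_swap ?_
    exact (Measurable.indicator (by fun_prop) hT).aemeasurable
  have h5 : ∀ q : U, ∫⁻ a : W, T.indicator (fun p => ENNReal.ofReal (‖p.1‖ ^ m)) (a, q) =
      ENNReal.ofReal (k * kap k / (k + m)) * ENNReal.ofReal (wt (k + m) q) := by
    intro q
    have hq : 0 < √(1 + ‖q‖ ^ 2) := Real.sqrt_pos.mpr (by positivity)
    have h6 := inner_integral (W := W) hk m (t := (√(1 + ‖q‖ ^ 2))⁻¹) (inv_pos.mpr hq).le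
    rw [← hkdef, ENNReal.ofReal_mul (by have := (kap_pos k).le; positivity)] at h6
    unfold wt
    rw [← h6]
    refine lintegral_congr fun a => ?_
    have h7 : (a, q) ∈ T ↔ ‖a‖ ∈ Iic (√(1 + ‖q‖ ^ 2))⁻¹ := by
      simp only [T, mem_ofPred_eq, mem_Iic]
      rw [← one_div, le_div_iff₀ hq,
        ← sq_le_one_iff₀ (show 0 ≤ ‖a‖ * √(1 + ‖q‖ ^ 2) by positivity), mul_pow,
        Real.sq_sqrt (by positivity)]
    by_cases h : (a, q) ∈ T
    · rw [indicator_of_mem h]
      have h' := h7.mp h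
      beta_reduce
      rw [indicator_of_mem h']
    · rw [indicator_of_notMem h]
      have h' : ‖a‖ ∉ Iic (√(1 + ‖q‖ ^ 2))⁻¹ := fun h' => h (h7.mpr h')
      beta_reduce
      rw [indicator_of_notMem h']
  rw [h1, h4] at hvol
  simp_rw [h5] at hvol
  rw [lintegral_const_mul' _ _ ENNReal.ofReal_ne_top] at hvol
  have hk' : (0 : ℝ) < k := by exact_mod_cast hk
  have hc : 0 < (k : ℝ) * kap k / (k + m) := by have := kap_pos k; positivity
  have h8 : ∫⁻ q : U, ENNReal.ofReal (wt (k + m) q) =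
      ENNReal.ofReal (kap (k + m)) / ENNReal.ofReal (k * kap k / (k + m)) := by
    rw [← hvol, mul_comm, ENNReal.mul_div_cancel_right]
    · exact (ENNReal.ofReal_pos.mpr hc).ne'
    · exact ENNReal.ofReal_ne_top
  rw [h8, ← ENNReal.ofReal_div_of_pos hc]
  congr 1
  have h9 := kap_pos k
  have h10 := kap_pos m
  unfold aa
  have : k + m - k = m := by omega
  rw [this]
  push_cast
  field_simp

end integral

end Pool.Agent.H44.HR
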