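import Pool.Agent.H44.Cyl.HR1

set_option autoImplicit false
set_option linter.unusedSectionVars false

/-!
# Graph subspaces of a normed pairing, and the volume of their bases
-/

namespace Pool.Agent.H44.HR

open MeasureTheory Set Metric Module
open scoped ENNReal Real Pointwise
open Pool.Agent.H52R3.Cyl

/-- a bilinear pairing `U × W → U` with `|q·a| = |q||a|`, for a subspace `W` of `E` and a subspace
`U` of its orthogonal complement -/
structure Pairing {E : Type*} [NormedAddCommGroup E] [InnerProductSpace ℝ E]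
    (W : Submodule ℝ E) (U : Submodule ℝ Wᗮ) where
  /-- the bilinear map -/
  β : U →ₗ[ℝ] W →ₗ[ℝ] U
  norm_β : ∀ q a, ‖β q a‖ = ‖q‖ * ‖a‖

namespace Pairing

variable {E : Type*} [NormedAddCommGroup E] [InnerProductSpace ℝ E] [FiniteDimensional ℝ E]
  {W : Submodule ℝ E} {U : Submodule ℝ Wᗮ} (P : Pairing W U)

/-- the shear `x ↦ x_{W⊥} - q · x_W` -/
noncomputable def T (q : U) : E →ₗ[ℝ] Wᗮ :=
  (Wᗮ.orthogonalProjectionOnto : E →L[ℝ] Wᗮ).toLinearMap -
    U.subtype ∘ₗ (P.β q) ∘ₗ (W.orthogonalProjectionOnto : E →L[ℝ] W).toLinearMap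

theorem T_apply (q : U) (x : E) :
    P.T q x = Wᗮ.orthogonalProjectionOnto x - (P.β q (W.orthogonalProjectionOnto x) : Wᗮ) := rfl

theorem continuous_T (q : U) : Continuous (P.T q) := (P.T q).continuous_of_finiteDimensional

/-- the graph of `a ↦ q · a` -/
noncomputable def H (q : U) : Submodule ℝ E := LinearMap.ker (P.T q)

theorem mem_H (q : U) (x : E) : x ∈ P.H q ↔
    Wᗮ.orthogonalProjectionOnto x = (P.β q (W.orthogonalProjectionOnto x) : Wᗮ) := by
  rw [H, LinearMap.mem_ker, T_apply, sub_eq_zero]

theorem projW_of_mem_orth (y : Wᗮ) : W.orthogonalProjectionOnto (y : E) = 0 := by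
  rw [Submodule.orthogonalProjectionOnto_eq_zero_iff]
  exact y.2

theorem T_of_orth (q : U) (y : Wᗮ) : P.T q (y : E) = y := by
  rw [T_apply, projW_of_mem_orth, map_zero, Submodule.orthogonalProjectionOnto_mem_subspace_eq_self]
  simp

theorem finrank_H (q : U) : finrank ℝ (P.H q) = finrank ℝ W := by
  have h1 : LinearMap.range (P.T q) = ⊤ := by
    rw [LinearMap.range_eq_top]
    intro y
    exact ⟨y, P.T_of_orth q y⟩
  have h2 := LinearMap.finrank_range_add_finrank_ker (P.T q)
  rw [h1, finrank_top] at h2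
  have h3 := W.finrank_add_finrank_orthogonal
  have h4 : finrank ℝ (P.H q) = finrank ℝ (LinearMap.ker (P.T q)) := rfl
  omega

theorem norm_sq_split (x : E) :
    ‖x‖ ^ 2 = ‖W.orthogonalProjectionOnto x‖ ^ 2 + ‖Wᗮ.orthogonalProjectionOnto x‖ ^ 2 :=
  Submodule.norm_sq_eq_add_norm_sq_projection x W

theorem norm_of_mem_H {q : U} {x : E} (hx : x ∈ P.H q) :
    ‖x‖ = √(1 + ‖q‖ ^ 2) * ‖W.orthogonalProjectionOnto x‖ := by
  have h1 := norm_sq_split (W := W) x
  have h2 : ‖Wᗮ.orthogonalProjectionOnto x‖ = ‖q‖ * ‖W.orthogonalProjectionOnto x‖ := by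
    rw [(P.mem_H q x).mp hx, ← P.norm_β]
    rfl
  rw [h2] at h1
  have h3 : ‖x‖ ^ 2 = (√(1 + ‖q‖ ^ 2) * ‖W.orthogonalProjectionOnto x‖) ^ 2 := by
    rw [mul_pow, Real.sq_sqrt (by positivity), h1]
    ring
  exact (pow_left_inj₀ (norm_nonneg _) (by positivity) two_ne_zero).mp h3

/-- the projection to the complement of `H q` does not change `T q` -/
theorem T_proj (q : U) (x : E) :
    P.T q ((P.H q)ᗮ.orthogonalProjectionOnto x : E) = P.T q x := by
  have h1 : x - ((P.H q)ᗮ.orthogonalProjectionOnto x : E) ∈ P.H q := by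
    have h2 := Submodule.sub_starProjection_mem_orthogonal (K := (P.H q)ᗮ) x
    rw [Submodule.orthogonal_orthogonal] at h2
    exact h2
  have h3 : P.T q (x - ((P.H q)ᗮ.orthogonalProjectionOnto x : E)) = 0 := LinearMap.mem_ker.mp h1
  rw [map_sub, sub_eq_zero] at h3
  exact h3.symm

/-- the point of `H q` over `a` -/
theorem graph_mem (q : U) (a : W) : (a : E) + ((P.β q a : Wᗮ) : E) ∈ P.H q := by
  rw [mem_H, map_add, map_add, proj_zero_of_mem W a.2, zero_add, projW_of_mem_orth, add_zero,
    Submodule.orthogonalProjectionOnto_mem_subspace_eq_self,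
    Submodule.orthogonalProjectionOnto_mem_subspace_eq_self]

theorem recon (q : U) (x : E) :
    x = ((W.orthogonalProjectionOnto x : E) +
      ((P.β q (W.orthogonalProjectionOnto x) : Wᗮ) : E)) + (P.T q x : E) := by
  have h1 := W.orthogonalDecomposition.symm_apply_apply x
  rw [Submodule.orthogonalDecomposition_apply] at h1
  have h2 : x = (W.orthogonalProjectionOnto x : E) + (Wᗮ.orthogonalProjectionOnto x : E) := by
    nth_rw 1 [← h1]
    simp
  rw [T_apply]
  push_cast
  nth_rw 1 [h2]
  abel

variable [MeasurableSpace E] [BorelSpace E]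

/-- the chart `x ↦ (x_W, T q x)` preserves the volume -/
theorem measurePreserving_chart (q : U) :
    MeasurePreserving (fun x : E => ((W.orthogonalProjectionOnto x, P.T q x) : W × Wᗮ))
      volume volume := by
  have h1 := W.orthogonalDecomposition.measurePreserving
  have h2 := WithLp.volume_preserving_ofLp W Wᗮ
  have h3 := h2.comp h1
  have hβ : Measurable (fun a : W => ((P.β q a : U) : Wᗮ)) :=
    (U.subtype ∘ₗ P.β q).continuous_of_finiteDimensional.measurable
  have h4 : MeasurePreserving (fun p : W × Wᗮ => (p.1, p.2 - ((P.β q p.1 : U) : Wᗮ)))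
      ((volume : Measure W).prod (volume : Measure Wᗮ))
      ((volume : Measure W).prod (volume : Measure Wᗮ)) := by
    refine MeasurePreserving.skew_product (f := id)
      (g := fun (a : W) (y : Wᗮ) => y - ((P.β q a : U) : Wᗮ)) (MeasurePreserving.id _) ?_ ?_
    · exact measurable_snd.sub (hβ.comp measurable_fst)
    · exact Filter.Eventually.of_forall fun a => (measurePreserving_sub_right volume _).map_eq
  have h5 := h4.comp h3
  have h6 : (fun x : E => ((W.orthogonalProjectionOnto x, P.T q x) : W × Wᗮ)) =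
      (fun p : W × Wᗮ => (p.1, p.2 - ((P.β q p.1 : U) : Wᗮ))) ∘
        (@WithLp.ofLp 2 (W × Wᗮ)) ∘ W.orthogonalDecomposition := by
    funext x
    simp [T_apply]
  rw [h6]
  exact h5

/-- the volume of a base of a cylinder with direction `H q` -/
theorem volume_base (hk : 0 < finrank ℝ W) (q : U) {S : Set Wᗮ} (hS : MeasurableSet S) :
    volume {y : (P.H q)ᗮ | P.T q (y : E) ∈ S} =
      ENNReal.ofReal (wt (finrank ℝ W) q) * volume S := by
  have hWn : Nontrivial W := Module.nontrivial_of_finrank_pos (R := ℝ) hk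
  have hHn : Nontrivial (P.H q) :=
    Module.nontrivial_of_finrank_pos (R := ℝ) (by rw [P.finrank_H]; exact hk)
  set k := finrank ℝ W with hkdef
  have hq : 0 < √(1 + ‖q‖ ^ 2) := Real.sqrt_pos.mpr (by positivity)
  set X : Set E := {x : E | P.T q x ∈ S ∧ ‖(P.H q).orthogonalProjectionOnto x‖ ≤ 1} with hX
  have hTm : Measurable (fun y : (P.H q)ᗮ => P.T q (y : E)) :=
    ((P.continuous_T q).comp continuous_subtype_val).measurable
  have hbase : MeasurableSet {y : (P.H q)ᗮ | P.T q (y : E) ∈ S} := hTm hS
  -- first computation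
  have h1 : volume X = volume {y : (P.H q)ᗮ | P.T q (y : E) ∈ S} *
      volume (closedBall (0 : P.H q) 1) := by
    have h2 : X = (fun x : E => (((P.H q)ᗮ.orthogonalProjectionOnto x,
        (P.H q).orthogonalProjectionOnto x) : (P.H q)ᗮ × P.H q)) ⁻¹'
        ({y : (P.H q)ᗮ | P.T q (y : E) ∈ S} ×ˢ closedBall (0 : P.H q) 1) := by
      ext x
      simp only [hX, mem_preimage, mem_prod, mem_ofPred_eq, mem_closedBall_zero_iff, P.T_proj]
    rw [h2, (measurePreserving_split (P.H q)).measure_preimage
      (hbase.prod measurableSet_closedBall).nullMeasurableSet, Measure.volume_eq_prod,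
      Measure.prod_prod]
  -- second computation
  let Y : Set (W × Wᗮ) := {p | p.2 ∈ S ∧ ‖(P.H q).orthogonalProjectionOnto
    (((p.1 : E) + ((P.β q p.1 : Wᗮ) : E)) + (p.2 : E))‖ ≤ 1}
  have hβ : Continuous (fun p : W × Wᗮ => ((P.β q p.1 : U) : Wᗮ)) :=
    (U.subtype ∘ₗ P.β q).continuous_of_finiteDimensional.comp continuous_fst
  have hYm : MeasurableSet Y := by
    have h3 : Continuous (fun p : W × Wᗮ => ‖(P.H q).orthogonalProjectionOnto
        (((p.1 : E) + ((P.β q p.1 : Wᗮ) : E)) + (p.2 : E))‖) := by
      have h4 : Continuous (fun p : W × Wᗮ => (((P.β q p.1 : U) : Wᗮ) : E)) :=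
        continuous_subtype_val.comp hβ
      fun_prop
    exact (measurable_snd hS).inter (measurableSet_le h3.measurable measurable_const)
  have h4 : volume X = volume Y := by
    have h5 : X = (fun x : E => ((W.orthogonalProjectionOnto x, P.T q x) : W × Wᗮ)) ⁻¹' Y := by
      ext x
      simp only [hX, Y, mem_preimage, mem_ofPred_eq]
      rw [← P.recon q x]
    rw [h5, (P.measurePreserving_chart q).measure_preimage hYm.nullMeasurableSet]
  have h6 : volume Y = volume S * (ENNReal.ofReal (wt k q) * volume (ball (0 : W) 1)) := by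
    rw [Measure.volume_eq_prod, Measure.prod_apply_symm hYm]
    have h7 : ∀ w : Wᗮ, (volume : Measure W) ((fun a : W => (a, w)) ⁻¹' Y) =
        S.indicator (fun _ => ENNReal.ofReal (wt k q) * volume (ball (0 : W) 1)) w := by
      intro w
      by_cases hw : w ∈ S
      · rw [indicator_of_mem hw]
        set p : P.H q := (P.H q).orthogonalProjectionOnto (w : E) with hp
        have h8 : (fun a : W => (a, w)) ⁻¹' Y =
            closedBall (-(W.orthogonalProjectionOnto (p : E))) (√(1 + ‖q‖ ^ 2))⁻¹ := by
          ext a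
          simp only [Y, mem_preimage, mem_ofPred_eq, hw, true_and, mem_closedBall, dist_eq_norm,
            sub_neg_eq_add]
          have h9 : (P.H q).orthogonalProjectionOnto
              (((a : E) + ((P.β q a : Wᗮ) : E)) + (w : E)) =
              ⟨(a : E) + ((P.β q a : Wᗮ) : E), P.graph_mem q a⟩ + p := by
            rw [map_add, ← hp]
            congr 1
            exact Submodule.orthogonalProjectionOnto_mem_subspace_eq_self
              (K := P.H q) ⟨(a : E) + ((P.β q a : Wᗮ) : E), P.graph_mem q a⟩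
          rw [h9]
          have h10 := P.norm_of_mem_H (q := q) (x := ((⟨(a : E) + ((P.β q a : Wᗮ) : E),
            P.graph_mem q a⟩ + p : P.H q) : E)) (Subtype.mem _)
          have h11 : W.orthogonalProjectionOnto (((⟨(a : E) + ((P.β q a : Wᗮ) : E),
            P.graph_mem q a⟩ + p : P.H q) : E)) = a + W.orthogonalProjectionOnto (p : E) := by
            rw [Submodule.coe_add, map_add]
            change W.orthogonalProjectionOnto ((a : E) + ((P.β q a : Wᗮ) : E)) + _ = _
            rw [map_add, projW_of_mem_orth, add_zero,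
              Submodule.orthogonalProjectionOnto_mem_subspace_eq_self]
          rw [h11] at h10
          rw [← one_div, le_div_iff₀ hq, mul_comm ‖a + _‖, ← h10]
          exact Iff.rfl
        rw [h8, Measure.addHaar_closedBall _ _ (inv_pos.mpr hq).le]
        rfl
      · rw [indicator_of_notMem hw]
        have h8 : (fun a : W => (a, w)) ⁻¹' Y = ∅ := by
          ext a
          simp only [Y, mem_preimage, mem_ofPred_eq, hw, false_and, mem_empty_iff_false]
        rw [h8, measure_empty]
    simp_rw [h7]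
    rw [lintegral_indicator hS, setLIntegral_const, mul_comm]
  have h12 : volume (closedBall (0 : P.H q) 1) = ENNReal.ofReal (kap k) := by
    rw [Measure.addHaar_closedBall_eq_addHaar_ball,
      volume_ball_kap (by rw [P.finrank_H]; exact hk), P.finrank_H]
  rw [volume_ball_kap hk, ← hkdef] at h6
  rw [h12] at h1
  rw [h4, h6] at h1
  have h13 : 0 < kap k := kap_pos k
  have h14 : volume {y : (P.H q)ᗮ | P.T q (y : E) ∈ S} * ENNReal.ofReal (kap k) =
      (ENNReal.ofReal (wt k q) * volume S) * ENNReal.ofReal (kap k) := by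
    rw [← h1]
    ring
  exact (ENNReal.mul_left_inj (ENNReal.ofReal_pos.mpr h13).ne' ENNReal.ofReal_ne_top).mp h14

end Pairing

end Pool.Agent.H44.HR
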