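import Pool.Agent.H44.Cyl.HR1

set_option autoImplicit false
set_option linter.unusedSectionVars false

/-!
# Efficient coverings of the slope space by balls
-/

namespace Pool.Agent.H44.HR

open MeasureTheory Set Metric Module
open scoped ENNReal Real Pointwise
open Pool.Agent.H52R3.Cyl

section slopes

variable {U : Type*} [NormedAddCommGroup U] [InnerProductSpace ℝ U] [FiniteDimensional ℝ U]
  [MeasurableSpace U] [BorelSpace U]

theorem sqrt_le_sqrt_near {q q' : U} {δ : ℝ} (hδ : 0 ≤ δ) (h : ‖q - q'‖ ≤ δ) :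
    √(1 + ‖q‖ ^ 2) ≤ (1 + δ) * √(1 + ‖q'‖ ^ 2) := by
  have h1 : ‖q‖ ≤ ‖q'‖ + δ := by
    have := norm_sub_norm_le q q'
    linarith
  rw [Real.sqrt_le_left (by positivity), mul_pow, Real.sq_sqrt (by positivity)]
  have h2 : ‖q‖ ^ 2 ≤ (‖q'‖ + δ) ^ 2 := pow_le_pow_left₀ (norm_nonneg _) h1 2
  have h3 : 0 ≤ δ * ((1 - ‖q'‖) ^ 2 + ‖q'‖ ^ 2 + 1) := by positivity
  have h4 : 0 ≤ δ ^ 2 * ‖q'‖ ^ 2 := by positivity
  nlinarith [h2, h3, h4]

theorem inv_sqrt_near {q q' : U} {δ : ℝ} (hδ : 0 ≤ δ) (h : ‖q - q'‖ ≤ δ) :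
    (√(1 + ‖q'‖ ^ 2))⁻¹ ≤ (1 + δ) * (√(1 + ‖q‖ ^ 2))⁻¹ := by
  have h1 := sqrt_le_sqrt_near hδ h
  have h2 : 0 < √(1 + ‖q‖ ^ 2) := Real.sqrt_pos.mpr (by positivity)
  have h3 : 0 < √(1 + ‖q'‖ ^ 2) := Real.sqrt_pos.mpr (by positivity)
  rw [← one_div, ← one_div, ← mul_div_assoc, mul_one, div_le_div_iff₀ h3 h2, one_mul]
  exact h1

theorem wt_near {q q' : U} {δ : ℝ} (hδ : 0 ≤ δ) (h : ‖q - q'‖ ≤ δ) (n : ℕ) :
    wt n q' ≤ (1 + δ) ^ n * wt n q := by
  unfold wt
  rw [← mul_pow]
  exact pow_le_pow_left₀ (inv_nonneg.mpr (Real.sqrt_nonneg _)) (inv_sqrt_near hδ h) n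

variable (U) in
/-- the measure `(1 + |q|²)^{-n/2} dq` -/
noncomputable def nu (n : ℕ) : Measure U := volume.withDensity (fun q => ENNReal.ofReal (wt n q))

theorem measurable_wt (n : ℕ) : Measurable (fun q : U => ENNReal.ofReal (wt n q)) :=
  (continuous_wt n).measurable.ennreal_ofReal

theorem nu_ball (n : ℕ) (hm : 0 < finrank ℝ U) (q : U) {δ r : ℝ} (hr : 0 ≤ r) (hrδ : r ≤ δ) :
    ENNReal.ofReal (r ^ (finrank ℝ U) * wt n q * kap (finrank ℝ U)) ≤
      ENNReal.ofReal ((1 + δ) ^ n) * nu U n (closedBall q r) := by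
  have hδ : 0 ≤ δ := hr.trans hrδ
  have hU : Nontrivial U := Module.nontrivial_of_finrank_pos (R := ℝ) hm
  have h1 : ENNReal.ofReal (((1 + δ) ^ n)⁻¹ * wt n q) * volume (closedBall q r) ≤
      nu U n (closedBall q r) := by
    unfold nu
    rw [withDensity_apply _ measurableSet_closedBall, ← setLIntegral_const]
    refine setLIntegral_mono (measurable_wt n) fun q' hq' => ENNReal.ofReal_le_ofReal ?_
    have h2 : ‖q' - q‖ ≤ δ := by
      rw [mem_closedBall, dist_eq_norm] at hq'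
      exact hq'.trans hrδ
    have h3 := wt_near hδ h2 n
    rw [inv_mul_le_iff₀ (by positivity)]
    exact h3
  refine le_trans (le_of_eq ?_) (mul_le_mul_right h1 _)
  have hw := (wt_pos n q).le
  have hkap := (kap_pos (finrank ℝ U)).le
  rw [Measure.addHaar_closedBall _ _ hr, volume_ball_kap hm, ← ENNReal.ofReal_mul (by positivity),
    ← ENNReal.ofReal_mul (by positivity), ← ENNReal.ofReal_mul (by positivity)]
  congr 1
  have h4 : (1 + δ) ^ n ≠ 0 := by positivity
  field_simp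

theorem exists_slopes {k : ℕ} {C : ℝ} (hC : 0 ≤ C) (hm : 0 < finrank ℝ U)
    (hmass : ∫⁻ q : U, ENNReal.ofReal (wt (k + finrank ℝ U) q) =
      ENNReal.ofReal (kap (finrank ℝ U) * C))
    {δ : ℝ} (hδ0 : 0 < δ) (hδ1 : δ ≤ 1) (R : ℝ) :
    ∃ F : Finset (U × ℝ), (∀ p ∈ F, 0 < p.2 ∧ p.2 ≤ δ) ∧
      (∀ q : U, ‖q‖ ≤ R → ∃ p ∈ F, ‖q - p.1‖ ≤ p.2) ∧
      ∑ p ∈ F, ((1 + δ) * p.2) ^ (finrank ℝ U) * wt (k + finrank ℝ U) p.1 ≤
        (1 + δ) ^ (k + 3 * finrank ℝ U) * (C + δ / kap (finrank ℝ U)) := by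
  classical
  set m := finrank ℝ U with hmdef
  set n := k + m with hn
  have htot : nu U n univ = ENNReal.ofReal (kap m * C) := by
    unfold nu
    rw [withDensity_apply _ MeasurableSet.univ, Measure.restrict_univ, hmass]
  have hfin : IsFiniteMeasure (nu U n) := ⟨by rw [htot]; exact ENNReal.ofReal_lt_top⟩
  obtain ⟨t, r, ht, hts, hr, hcov, hsum⟩ :=
    Besicovitch.exists_closedBall_covering_tsum_measure_le (nu U n)
      (ε := ENNReal.ofReal δ) (ENNReal.ofReal_pos.mpr hδ0).ne' (fun _ => Ioo 0 (δ / 2))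
      (closedBall (0 : U) R) (by
        intro x _ η hη
        refine ⟨min (δ / 4) (η / 2), ⟨?_, ?_⟩, ?_, ?_⟩
        · exact lt_min (by linarith) (by linarith)
        · exact (min_le_left _ _).trans_lt (by linarith)
        · exact lt_min (by linarith) (by linarith)
        · exact (min_le_right _ _).trans_lt (by linarith))
  have hr0 : ∀ x ∈ t, 0 < r x := fun x hx => (hr x hx).1
  have hr1 : ∀ x ∈ t, r x < δ / 2 := fun x hx => (hr x hx).2
  have hcov2 : closedBall (0 : U) R ⊆ ⋃ x ∈ t, ball x ((1 + δ) * r x) := by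
    refine hcov.trans (iUnion₂_mono fun x hx => closedBall_subset_ball ?_)
    have := hr0 x hx
    nlinarith
  obtain ⟨b, hbt, hbf, hbc⟩ := (isCompact_closedBall (0 : U) R).elim_finite_subcover_image
    (fun x _ => isOpen_ball) hcov2
  set G := hbf.toFinset with hG
  have hGt : ∀ x ∈ G, x ∈ t := fun x hx => hbt (hbf.mem_toFinset.mp hx)
  refine ⟨G.image (fun x => (x, (1 + δ) * r x)), ?_, ?_, ?_⟩
  · intro p hp
    obtain ⟨x, hx, rfl⟩ := Finset.mem_image.mp hp
    have h1 := hr0 x (hGt x hx)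
    have h2 := hr1 x (hGt x hx)
    refine ⟨by positivity, ?_⟩
    simp only
    nlinarith
  · intro q hq
    obtain ⟨x, hx, hxq⟩ := mem_iUnion₂.mp (hbc (mem_closedBall_zero_iff.mpr hq))
    refine ⟨(x, (1 + δ) * r x), Finset.mem_image_of_mem _ (hbf.mem_toFinset.mpr hx), ?_⟩
    rw [mem_ball, dist_eq_norm] at hxq
    exact hxq.le
  · rw [Finset.sum_image (fun x _ y _ h => (Prod.ext_iff.mp h).1)]
    simp only
    have h1 : ∑ x ∈ G, nu U n (closedBall x (r x)) ≤
        ENNReal.ofReal (kap m * C) + ENNReal.ofReal δ := by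
      have h2 : ∑ x ∈ G, nu U n (closedBall x (r x)) ≤
          ∑' x : t, nu U n (closedBall (x : U) (r x)) := by
        rw [tsum_subtype t (fun x => nu U n (closedBall x (r x)))]
        refine le_trans (Finset.sum_le_sum fun x hx => ?_) (ENNReal.sum_le_tsum G)
        rw [indicator_of_mem (hGt x hx)]
      refine h2.trans (hsum.trans ?_)
      rw [← htot]
      exact add_le_add_left (measure_mono (subset_univ _)) _
    have h3 : ENNReal.ofReal ((∑ x ∈ G, ((1 + δ) * ((1 + δ) * r x)) ^ m * wt n x) * kap m) ≤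
        ENNReal.ofReal ((1 + δ) ^ (k + 3 * m) * (kap m * C + δ)) := by
      have hkap := (kap_pos m).le
      rw [Finset.sum_mul, ENNReal.ofReal_sum_of_nonneg (fun x hx => by
          have := (hr0 x (hGt x hx)).le
          have := (wt_pos n x).le
          positivity)]
      calc ∑ x ∈ G, ENNReal.ofReal (((1 + δ) * ((1 + δ) * r x)) ^ m * wt n x * kap m)
          ≤ ∑ x ∈ G, ENNReal.ofReal ((1 + δ) ^ (k + 3 * m)) * nu U n (closedBall x (r x)) := by
            refine Finset.sum_le_sum fun x hx => ?_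
            have h4 := nu_ball n hm x (hr0 x (hGt x hx)).le
              (show r x ≤ δ by have := hr1 x (hGt x hx); linarith)
            have h5 : ((1 + δ) * ((1 + δ) * r x)) ^ m * wt n x * kap m =
                (1 + δ) ^ (2 * m) * (r x ^ m * wt n x * kap m) := by
              rw [mul_pow, mul_pow, two_mul, pow_add]
              ring
            rw [h5, ENNReal.ofReal_mul (by positivity)]
            refine (mul_le_mul_right h4 _).trans (le_of_eq ?_)
            rw [← mul_assoc, ← ENNReal.ofReal_mul (by positivity), ← pow_add]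
            congr 3
            omega
        _ = ENNReal.ofReal ((1 + δ) ^ (k + 3 * m)) * ∑ x ∈ G, nu U n (closedBall x (r x)) := by
            rw [Finset.mul_sum]
        _ ≤ ENNReal.ofReal ((1 + δ) ^ (k + 3 * m)) *
            (ENNReal.ofReal (kap m * C) + ENNReal.ofReal δ) := mul_le_mul_right h1 _
        _ = _ := by
            rw [← ENNReal.ofReal_add (by positivity) hδ0.le, ← ENNReal.ofReal_mul (by positivity)]
    rw [ENNReal.ofReal_le_ofReal_iff (by have := kap_pos m; positivity)] at h3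
    have h6 := kap_pos m
    rw [← le_div_iff₀ h6] at h3
    refine h3.trans (le_of_eq ?_)
    field_simp

end slopes

end Pool.Agent.H44.HR
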