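import Pool.Graph.R_seed8.H52R3.Cyl14
import Pool.Agent.H44.Cyl.HR2
import Pool.Agent.H44.Cyl.HR3

set_option autoImplicit false
set_option linter.unusedSectionVars false

/-!
# The upper bound given by a normed pairing
-/

namespace Pool.Agent.H44.HR

open MeasureTheory Set Metric Module Filter Topology
open scoped ENNReal Real Pointwise
open Pool.Agent.H52R3.Cyl
open Pool.Agent.H52R3.CylDef

section last

variable {E : Type*} [NormedAddCommGroup E] [InnerProductSpace ℝ E] [FiniteDimensional ℝ E]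
  [MeasurableSpace E] [BorelSpace E]

/-- the base of the cylinder which covers the part where `x_W` is small -/
def slab (W H' : Submodule ℝ E) (s : ℝ) : Set H'ᗮ :=
  {y : H'ᗮ | ‖W.orthogonalProjectionOnto (y : E)‖ ≤ s ∧ ‖y‖ ≤ 1}

theorem isClosed_slab (W H' : Submodule ℝ E) (s : ℝ) : IsClosed (slab W H' s) := by
  unfold slab
  have h1 : Continuous (fun y : H'ᗮ => ‖W.orthogonalProjectionOnto (y : E)‖) := by fun_prop
  exact (isClosed_le h1 continuous_const).inter (isClosed_le continuous_norm continuous_const)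

theorem exists_slab (W H' : Submodule ℝ E) (hW : 0 < finrank ℝ W) (hH : H' ≤ Wᗮ)
    {ε : ℝ≥0∞} (hε : 0 < ε) : ∃ n : ℕ, volume (slab W H' (1 / ((n : ℝ) + 1))) < ε := by
  have hanti : Antitone (fun n : ℕ => slab W H' (1 / ((n : ℝ) + 1))) := by
    intro n n' hnn y hy
    refine ⟨hy.1.trans ?_, hy.2⟩
    have : (n : ℝ) ≤ n' := by exact_mod_cast hnn
    have h0 : (0 : ℝ) < (n : ℝ) + 1 := by positivity
    gcongr
  have hfin : ∀ n : ℕ, volume (slab W H' (1 / ((n : ℝ) + 1))) ≠ ∞ := by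
    intro n
    refine ((measure_mono (t := closedBall (0 : H'ᗮ) 1) ?_).trans_lt
      measure_closedBall_lt_top).ne
    intro y hy
    rw [mem_closedBall_zero_iff]
    exact hy.2
  have htend := tendsto_measure_iInter_atTop (μ := (volume : Measure H'ᗮ))
    (s := fun n : ℕ => slab W H' (1 / ((n : ℝ) + 1)))
    (fun n => (isClosed_slab W H' _).measurableSet.nullMeasurableSet) hanti ⟨0, hfin 0⟩
  have hzero : volume (⋂ n : ℕ, slab W H' (1 / ((n : ℝ) + 1))) = 0 := by
    let K : Submodule ℝ H'ᗮ := LinearMap.ker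
      ((W.orthogonalProjectionOnto : E →L[ℝ] W).toLinearMap ∘ₗ H'ᗮ.subtype)
    have hK : K ≠ ⊤ := by
      intro h
      have : Nontrivial W := Module.nontrivial_of_finrank_pos (R := ℝ) hW
      obtain ⟨w, hw⟩ := exists_ne (0 : W)
      have h1 : (w : E) ∈ H'ᗮ := by
        rw [Submodule.mem_orthogonal]
        intro u hu
        rw [real_inner_comm]
        exact (Submodule.mem_orthogonal _ _).mp (hH hu) _ w.2
      have h2 : (⟨(w : E), h1⟩ : H'ᗮ) ∈ K := by rw [h]; trivial
      have h3 : W.orthogonalProjectionOnto (w : E) = 0 := LinearMap.mem_ker.mp h2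
      rw [Submodule.orthogonalProjectionOnto_mem_subspace_eq_self] at h3
      exact hw h3
    refine measure_mono_null ?_ (Measure.addHaar_submodule volume K hK)
    intro y hy
    rw [mem_iInter] at hy
    have h1 : ‖W.orthogonalProjectionOnto (y : E)‖ ≤ 0 :=
      ge_of_tendsto tendsto_one_div_add_atTop_nhds_zero_nat (Eventually.of_forall fun n => (hy n).1)
    have h2 : W.orthogonalProjectionOnto (y : E) = 0 := norm_le_zero_iff.mp h1
    exact LinearMap.mem_ker.mpr h2
  rw [hzero] at htend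
  exact (htend.eventually_lt_const hε).exists

end last

namespace Pairing

variable {E : Type*} [NormedAddCommGroup E] [InnerProductSpace ℝ E] [FiniteDimensional ℝ E]
  {W : Submodule ℝ E} {U : Submodule ℝ Wᗮ} (P : Pairing W U)

theorem exists_slope {a : W} (ha : a ≠ 0) (b : U) : ∃ q : U, P.β q a = b := by
  let f : U →ₗ[ℝ] U := P.β.flip a
  have hinj : Function.Injective f := by
    rw [← LinearMap.ker_eq_bot, LinearMap.ker_eq_bot']
    intro q hq
    have h1 : ‖P.β q a‖ = 0 := by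
      have : P.β q a = 0 := hq
      rw [this, norm_zero]
    rw [P.norm_β] at h1
    rcases mul_eq_zero.mp h1 with h | h
    · exact norm_eq_zero.mp h
    · exact absurd (norm_eq_zero.mp h) ha
  obtain ⟨q, hq⟩ := (LinearMap.injective_iff_surjective.mp hinj) b
  exact ⟨q, hq⟩

include P in
theorem finrank_le (hm : 0 < finrank ℝ U) : finrank ℝ W ≤ finrank ℝ U := by
  have : Nontrivial U := Module.nontrivial_of_finrank_pos (R := ℝ) hm
  obtain ⟨q, hq⟩ := exists_ne (0 : U)
  refine LinearMap.finrank_le_finrank_of_injective (f := P.β q) ?_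
  rw [← LinearMap.ker_eq_bot, LinearMap.ker_eq_bot']
  intro a ha
  have h1 : ‖P.β q a‖ = 0 := by rw [ha, norm_zero]
  rw [P.norm_β] at h1
  rcases mul_eq_zero.mp h1 with h | h
  · exact absurd (norm_eq_zero.mp h) hq
  · exact norm_eq_zero.mp h

variable [MeasurableSpace E] [BorelSpace E]

/-- a point whose slope is near `q₁` lies in the cylinder with direction `H q₁` -/
theorem mem_squeezed {x : E} (hx : ‖x‖ ≤ 1) {q q₁ : U} {δ r : ℝ} (hδ : 0 ≤ δ) (hr : 0 ≤ r)
    (hrδ : r ≤ δ) (hq : P.β q (W.orthogonalProjectionOnto x) =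
      U.orthogonalProjectionOnto (Wᗮ.orthogonalProjectionOnto x)) (hqq : ‖q - q₁‖ ≤ r) :
    P.T q₁ x ∈ squeezed U ((1 + δ) * r * (√(1 + ‖q₁‖ ^ 2))⁻¹) := by
  set a := W.orthogonalProjectionOnto x with ha
  set y := Wᗮ.orthogonalProjectionOnto x with hy
  set b := U.orthogonalProjectionOnto y with hb
  set z := Uᗮ.orthogonalProjectionOnto y with hz
  have h1 : ‖x‖ ^ 2 = ‖a‖ ^ 2 + ‖y‖ ^ 2 := norm_sq_split x
  have h2 : ‖y‖ ^ 2 = ‖b‖ ^ 2 + ‖z‖ ^ 2 := Submodule.norm_sq_eq_add_norm_sq_projection y U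
  have h3 : P.T q₁ x = y - (P.β q₁ a : Wᗮ) := P.T_apply q₁ x
  have h4 : U.orthogonalProjectionOnto (P.T q₁ x) = P.β (q - q₁) a := by
    rw [h3, map_sub, Submodule.orthogonalProjectionOnto_mem_subspace_eq_self, ← hb, ← hq,
      map_sub, LinearMap.sub_apply]
  have h5 : Uᗮ.orthogonalProjectionOnto (P.T q₁ x) = z := by
    rw [h3, map_sub, proj_zero_of_mem U (P.β q₁ a).2, sub_zero]
  unfold squeezed
  rw [mem_ofPred_eq, h4, h5, P.norm_β]
  have h6 : ‖b‖ = ‖q‖ * ‖a‖ := by rw [← P.norm_β, hq]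
  have h7 : ‖x‖ ^ 2 ≤ 1 := (sq_le_one_iff₀ (norm_nonneg _)).mpr hx
  have h8 : ‖a‖ ^ 2 * (1 + ‖q‖ ^ 2) ≤ 1 - ‖z‖ ^ 2 := by
    rw [h1, h2, h6] at h7
    nlinarith
  have hs : 0 < √(1 + ‖q‖ ^ 2) := Real.sqrt_pos.mpr (by positivity)
  have h9 : ‖a‖ ^ 2 ≤ (1 - ‖z‖ ^ 2) * ((√(1 + ‖q‖ ^ 2))⁻¹) ^ 2 := by
    rw [inv_pow, Real.sq_sqrt (by positivity), ← div_eq_mul_inv, le_div_iff₀ (by positivity)]
    exact h8
  have h10 : (√(1 + ‖q‖ ^ 2))⁻¹ ≤ (1 + δ) * (√(1 + ‖q₁‖ ^ 2))⁻¹ :=
    inv_sqrt_near hδ (by rw [norm_sub_rev]; exact hqq.trans hrδ)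
  have h11 : ((√(1 + ‖q‖ ^ 2))⁻¹) ^ 2 ≤ ((1 + δ) * (√(1 + ‖q₁‖ ^ 2))⁻¹) ^ 2 :=
    pow_le_pow_left₀ (inv_nonneg.mpr hs.le) h10 2
  have h12 : 0 ≤ 1 - ‖z‖ ^ 2 := by
    have : 0 ≤ ‖a‖ ^ 2 * (1 + ‖q‖ ^ 2) := by positivity
    linarith
  calc (‖q - q₁‖ * ‖a‖) ^ 2 ≤ (r * ‖a‖) ^ 2 := by gcongr
    _ = r ^ 2 * ‖a‖ ^ 2 := mul_pow _ _ _
    _ ≤ r ^ 2 * ((1 - ‖z‖ ^ 2) * ((1 + δ) * (√(1 + ‖q₁‖ ^ 2))⁻¹) ^ 2) := by
        refine mul_le_mul_of_nonneg_left (h9.trans ?_) (by positivity)
        exact mul_le_mul_of_nonneg_left h11 h12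
    _ = _ := by ring

/-- the cylinder with direction `H q` and base of size `ρ` -/
noncomputable def cylin (q : U) (ρ : ℝ) : Cylinder E (finrank ℝ W) where
  H := P.H q
  dim := P.finrank_H q
  B := {y : (P.H q)ᗮ | P.T q (y : E) ∈ squeezed U ρ}
  meas := by
    have h1 : Continuous (fun y : (P.H q)ᗮ => P.T q (y : E)) :=
      (P.continuous_T q).comp continuous_subtype_val
    exact ((isClosed_squeezed U ρ).preimage h1).measurableSet.nullMeasurableSet

theorem crv_cylin (hk : 0 < finrank ℝ W) (hm : 0 < finrank ℝ U) (q : U) {ρ : ℝ} (hρ : 0 < ρ) :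
    (P.cylin q ρ).crv (closedBall 0 1) =
      ENNReal.ofReal (ρ ^ (finrank ℝ U) * wt (finrank ℝ W) q) := by
  change volume {y : (P.H q)ᗮ | P.T q (y : E) ∈ squeezed U ρ} /
    volume (Pool.Agent.H52R3.Cyl.shadow (P.H q) (closedBall (0 : E) 1)) = _
  have h1 := W.finrank_add_finrank_orthogonal
  have h2 := (P.H q).finrank_add_finrank_orthogonal
  have h3 := P.finrank_H q
  have h4 : finrank ℝ U ≤ finrank ℝ Wᗮ := U.finrank_le
  have hn1 : Nontrivial (P.H q)ᗮ := Module.nontrivial_of_finrank_pos (R := ℝ) (by omega)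
  have hn2 : Nontrivial Wᗮ := Module.nontrivial_of_finrank_pos (R := ℝ) (by omega)
  have h5 : volume (closedBall (0 : (P.H q)ᗮ) 1) = volume (closedBall (0 : Wᗮ) 1) := by
    rw [Measure.addHaar_closedBall_eq_addHaar_ball, Measure.addHaar_closedBall_eq_addHaar_ball,
      volume_ball_kap (by omega), volume_ball_kap (by omega)]
    congr 2
    omega
  rw [P.volume_base hk q (isClosed_squeezed U ρ).measurableSet, volume_squeezed U hρ,
    Pool.Agent.H52R3.Cyl.shadow_ball, h5, ← mul_assoc, mul_div_assoc, ENNReal.div_self, mul_one,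
    ← ENNReal.ofReal_mul (wt_pos _ _).le, mul_comm]
  · exact (measure_closedBall_pos _ _ one_pos).ne'
  · exact measure_closedBall_lt_top.ne

include P in
theorem good_le (hk : 0 < finrank ℝ W) (hm : 0 < finrank ℝ U) {c : ℝ}
    (hc : c ∈ Good E (finrank ℝ W)) :
    c ≤ kap (finrank ℝ W + finrank ℝ U) / aa (finrank ℝ W + finrank ℝ U) (finrank ℝ W) := by
  classical
  have hmass := mass U W hk hm
  set k := finrank ℝ W with hkdef
  set m := finrank ℝ U with hmdef
  set C := kap (k + m) / aa (k + m) k with hC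
  have hC0 : 0 < C := div_pos (kap_pos _) (aa_pos hk (by omega))
  have key : ∀ δ : ℝ, 0 < δ → δ ≤ 1 →
      c ≤ δ + (1 + δ) ^ (k + 3 * m) * (C + δ / kap m) := by
    intro δ hδ0 hδ1
    -- the last cylinder
    have hkm : k ≤ m := P.finrank_le hm
    have h4 : m ≤ finrank ℝ Wᗮ := U.finrank_le
    obtain ⟨H', hH', hH'k⟩ := exists_le_submodule Wᗮ k (by omega)
    have h1 := W.finrank_add_finrank_orthogonal
    have h2 := H'.finrank_add_finrank_orthogonal
    have hn1 : Nontrivial H'ᗮ := Module.nontrivial_of_finrank_pos (R := ℝ) (by omega)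
    have hV0 : volume (closedBall (0 : H'ᗮ) 1) ≠ 0 := (measure_closedBall_pos _ _ one_pos).ne'
    have hVt : volume (closedBall (0 : H'ᗮ) 1) ≠ ∞ := measure_closedBall_lt_top.ne
    obtain ⟨n, hn⟩ := exists_slab W H' hk hH'
      (ε := ENNReal.ofReal δ * volume (closedBall (0 : H'ᗮ) 1))
      (ENNReal.mul_pos (ENNReal.ofReal_pos.mpr hδ0).ne' hV0)
    set R : ℝ := (n : ℝ) + 1 with hR
    have hR0 : 0 < R := by positivity
    obtain ⟨F, hF, hFcov, hFsum⟩ := exists_slopes (k := k) hC0.le hm hmass hδ0 hδ1 R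
    let last : Cylinder E k := ⟨H', hH'k, slab W H' (1 / R),
      (isClosed_slab W H' _).measurableSet.nullMeasurableSet⟩
    let ι := Option F
    let rho : F → ℝ := fun p => (1 + δ) * p.1.2 * (√(1 + ‖p.1.1‖ ^ 2))⁻¹
    have hrho : ∀ p : F, 0 < rho p := by
      intro p
      have h5 := (hF p.1 p.2).1
      have h6 : 0 < √(1 + ‖p.1.1‖ ^ 2) := Real.sqrt_pos.mpr (by positivity)
      change 0 < (1 + δ) * p.1.2 * (√(1 + ‖p.1.1‖ ^ 2))⁻¹
      positivity
    let D : ι → Cylinder E k := fun i => i.elim last (fun p => P.cylin p.1.1 (rho p))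
    let e := (Fintype.equivFin ι).symm
    have hcov : closedBall (0 : E) 1 ⊆ ⋃ j, (D (e j)).toSet := by
      intro x hx
      rw [mem_closedBall_zero_iff] at hx
      have hex : ∃ i : ι, x ∈ (D i).toSet := by
        have hlast : ‖W.orthogonalProjectionOnto x‖ ≤ 1 / R → x ∈ last.toSet := by
          intro h
          change x ∈ cyl H' (slab W H' (1 / R))
          rw [mem_cyl_iff]
          refine ⟨?_, (Submodule.norm_orthogonalProjectionOnto_apply_le _ x).trans hx⟩
          have h5 : x - (H'ᗮ.orthogonalProjectionOnto x : E) ∈ H' := by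
            have h6 := Submodule.sub_starProjection_mem_orthogonal (K := H'ᗮ) x
            rw [Submodule.orthogonal_orthogonal] at h6
            exact h6
          have h7 : W.orthogonalProjectionOnto (x - (H'ᗮ.orthogonalProjectionOnto x : E)) = 0 := by
            rw [Submodule.orthogonalProjectionOnto_eq_zero_iff]
            exact hH' h5
          rw [map_sub, sub_eq_zero] at h7
          rw [← h7]
          exact h
        by_cases ha : W.orthogonalProjectionOnto x = 0
        · refine ⟨none, hlast ?_⟩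
          rw [ha, norm_zero]
          positivity
        · obtain ⟨q, hq⟩ := P.exists_slope ha
            (U.orthogonalProjectionOnto (Wᗮ.orthogonalProjectionOnto x))
          by_cases hqR : ‖q‖ ≤ R
          · obtain ⟨p, hp, hpq⟩ := hFcov q hqR
            refine ⟨some ⟨p, hp⟩, ?_⟩
            change x ∈ cyl (P.H p.1) {y : (P.H p.1)ᗮ | P.T p.1 (y : E) ∈
              squeezed U ((1 + δ) * p.2 * (√(1 + ‖p.1‖ ^ 2))⁻¹)}
            rw [mem_cyl_iff, mem_ofPred_eq, P.T_proj]
            exact P.mem_squeezed hx hδ0.le (hF p hp).1.le (hF p hp).2 hq hpq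
          · refine ⟨none, hlast ?_⟩
            have h5 : ‖U.orthogonalProjectionOnto (Wᗮ.orthogonalProjectionOnto x)‖ ≤ 1 :=
              (Submodule.norm_orthogonalProjectionOnto_apply_le _ _).trans
                ((Submodule.norm_orthogonalProjectionOnto_apply_le _ _).trans hx)
            rw [← hq, P.norm_β] at h5
            rw [le_div_iff₀ hR0]
            have h6 := norm_nonneg (W.orthogonalProjectionOnto x)
            nlinarith [not_le.mp hqR]
      obtain ⟨i, hi⟩ := hex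
      refine mem_iUnion.mpr ⟨e.symm i, ?_⟩
      rw [e.apply_symm_apply]
      exact hi
    have h5 := hc _ isEllipsoid_ball _ (fun j => D (e j)) hcov
    have h6 : ∑ j, (D (e j)).crv (closedBall 0 1) = ∑ i, (D i).crv (closedBall 0 1) :=
      e.sum_comp (fun i => (D i).crv (closedBall 0 1))
    rw [h6, Fintype.sum_option] at h5
    have h7 : (D none).crv (closedBall 0 1) ≤ ENNReal.ofReal δ := by
      change volume (slab W H' (1 / R)) / volume (Pool.Agent.H52R3.Cyl.shadow H' (closedBall (0 : E) 1)) ≤ _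
      rw [Pool.Agent.H52R3.Cyl.shadow_ball]
      exact ENNReal.div_le_of_le_mul hn.le
    have h8 : ∑ p : F, (D (some p)).crv (closedBall 0 1) =
        ENNReal.ofReal (∑ p ∈ F, ((1 + δ) * p.2) ^ m * wt (k + m) p.1) := by
      have h9 : ∀ p : F, (D (some p)).crv (closedBall 0 1) =
          ENNReal.ofReal (((1 + δ) * p.1.2) ^ m * wt (k + m) p.1.1) := by
        intro p
        change (P.cylin p.1.1 (rho p)).crv (closedBall 0 1) = _
        rw [P.crv_cylin hk hm _ (hrho p)]
        congr 1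
        simp only [rho, wt]
        rw [mul_pow, pow_add]
        ring
      simp_rw [h9]
      rw [ENNReal.ofReal_sum_of_nonneg (fun p hp => by
        have := (hF p hp).1
        have := (wt_pos (k + m) p.1).le
        positivity)]
      exact Finset.sum_coe_sort F
        (fun p => ENNReal.ofReal (((1 + δ) * p.2) ^ m * wt (k + m) p.1))
    rw [h8] at h5
    have h10 : 0 ≤ ∑ p ∈ F, ((1 + δ) * p.2) ^ m * wt (k + m) p.1 :=
      Finset.sum_nonneg fun p hp => by
        have := (hF p hp).1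
        have := (wt_pos (k + m) p.1).le
        positivity
    have h11 := h5.trans (add_le_add_left h7 _)
    rw [← ENNReal.ofReal_add hδ0.le h10, ENNReal.ofReal_le_ofReal_iff (by positivity)] at h11
    linarith
  have hcont : Continuous (fun δ : ℝ => δ + (1 + δ) ^ (k + 3 * m) * (C + δ / kap m)) := by
    fun_prop
  have htend : Tendsto (fun δ : ℝ => δ + (1 + δ) ^ (k + 3 * m) * (C + δ / kap m)) (𝓝[>] 0)
      (𝓝 C) := by
    have h1 := (hcont.tendsto 0).mono_left (nhdsWithin_le_nhds (s := Ioi 0))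
    simpa using h1
  refine ge_of_tendsto htend ?_
  filter_upwards [Ioc_mem_nhdsGT (show (0 : ℝ) < 1 by norm_num)] with δ hδ
  exact key δ hδ.1 hδ.2

end Pairing

end Pool.Agent.H44.HR
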