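import Mathlib

set_option autoImplicit false
set_option linter.unusedSectionVars false

/-!
# The Hurwitz–Radon families of skew-symmetric matrices
-/

namespace Pool.Agent.H44.HR

open Matrix
open scoped Kronecker

/-- anticommuting skew-symmetric real matrices of square `-1` -/
structure Skew (L ι : Type) [Fintype ι] [DecidableEq ι] where
  /-- the matrices -/
  J : L → Matrix ι ι ℝ
  skew : ∀ l, (J l)ᵀ = -J l
  sq : ∀ l, J l * J l = -1
  anti : ∀ l l', l ≠ l' → J l * J l' = -(J l' * J l)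

theorem neg_kron {ι κ : Type} (A : Matrix ι ι ℝ) (B : Matrix κ κ ℝ) :
    (-A) ⊗ₖ B = -(A ⊗ₖ B) := by
  ext i j
  simp

theorem kron_neg {ι κ : Type} (A : Matrix ι ι ℝ) (B : Matrix κ κ ℝ) :
    A ⊗ₖ (-B) = -(A ⊗ₖ B) := by
  ext i j
  simp

theorem transpose_kron {ι κ : Type} (A : Matrix ι ι ℝ) (B : Matrix κ κ ℝ) :
    (A ⊗ₖ B)ᵀ = Aᵀ ⊗ₖ Bᵀ := by
  ext i j
  simp

namespace Skew

variable {L L' ι κ : Type} [Fintype ι] [DecidableEq ι] [Fintype κ] [DecidableEq κ]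

/-- a subfamily -/
def comp (S : Skew L ι) (f : L' ↪ L) : Skew L' ι where
  J := fun l => S.J (f l)
  skew := fun l => S.skew _
  sq := fun l => S.sq _
  anti := fun l l' h => S.anti _ _ (fun h' => h (f.injective h'))

/-- change of the index set -/
def reindex (S : Skew L ι) (e : κ ≃ ι) : Skew L κ where
  J := fun l => (S.J l).submatrix e e
  skew := fun l => by rw [transpose_submatrix, S.skew, submatrix_neg]; rfl
  sq := fun l => by
    rw [submatrix_mul_equiv, S.sq, submatrix_neg]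
    simp
  anti := fun l l' h => by
    rw [submatrix_mul_equiv, submatrix_mul_equiv, S.anti l l' h, submatrix_neg]
    rfl

/-- the combination of a family with a family which has a symmetric element anticommuting with
all its members -/
def tensor (S : Skew L ι) (E : Skew L' κ) (ω : Matrix κ κ ℝ) (h1 : ωᵀ = ω) (h2 : ω * ω = 1)
    (h3 : ∀ l, ω * E.J l = -(E.J l * ω)) : Skew (L ⊕ L') (ι × κ) where
  J := Sum.elim (fun l => S.J l ⊗ₖ ω) (fun l => 1 ⊗ₖ E.J l)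
  skew := by
    rintro (l | l)
    · simp only [Sum.elim_inl]
      rw [transpose_kron, S.skew, h1, neg_kron]
    · simp only [Sum.elim_inr]
      rw [transpose_kron, E.skew, kron_neg, transpose_one]
  sq := by
    rintro (l | l)
    · simp only [Sum.elim_inl]
      rw [← mul_kronecker_mul, S.sq, h2, neg_kron, one_kronecker_one]
    · simp only [Sum.elim_inr]
      rw [← mul_kronecker_mul, E.sq, one_mul, kron_neg, one_kronecker_one]
  anti := by
    rintro (l | l) (l' | l') h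
    · simp only [Sum.elim_inl]
      rw [← mul_kronecker_mul, ← mul_kronecker_mul, S.anti l l' (fun h' => h (by rw [h'])), neg_kron]
    · simp only [Sum.elim_inl, Sum.elim_inr]
      rw [← mul_kronecker_mul, ← mul_kronecker_mul, mul_one, one_mul, h3, kron_neg]
    · simp only [Sum.elim_inl, Sum.elim_inr]
      rw [← mul_kronecker_mul, ← mul_kronecker_mul, mul_one, one_mul, h3, kron_neg, neg_neg]
    · simp only [Sum.elim_inr]
      rw [← mul_kronecker_mul, ← mul_kronecker_mul, E.anti l l' (fun h' => h (by rw [h'])), kron_neg]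

end Skew

/-- the symmetric matrix `σ_x` -/
def sx : Matrix (Fin 2) (Fin 2) ℝ := !![0, 1; 1, 0]

/-- the symmetric matrix `σ_z` -/
def sz : Matrix (Fin 2) (Fin 2) ℝ := !![1, 0; 0, -1]

/-- the skew matrix of order `2` -/
def ep : Matrix (Fin 2) (Fin 2) ℝ := !![0, -1; 1, 0]

/-- the family of order `2` -/
def skew2 : Skew (Fin 1) (Fin 2) where
  J := fun _ => ep
  skew := fun _ => by ext i j; fin_cases i <;> fin_cases j <;> simp [ep]
  sq := fun _ => by ext i j; fin_cases i <;> fin_cases j <;> simp [ep]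
  anti := fun l l' h => absurd (Subsingleton.elim l l') h

theorem sx_transpose : sxᵀ = sx := by ext i j; fin_cases i <;> fin_cases j <;> simp [sx]

theorem sz_transpose : szᵀ = sz := by ext i j; fin_cases i <;> fin_cases j <;> simp [sz]

theorem sx_sq : sx * sx = 1 := by ext i j; fin_cases i <;> fin_cases j <;> simp [sx]

theorem sz_sq : sz * sz = 1 := by ext i j; fin_cases i <;> fin_cases j <;> simp [sz]

theorem sz_ep : sz * ep = -(ep * sz) := by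
  ext i j; fin_cases i <;> fin_cases j <;> simp [sz, ep]

theorem sx_ep : sx * ep = -(ep * sx) := by
  ext i j; fin_cases i <;> fin_cases j <;> simp [sx, ep]

theorem sx_sz : sx * sz = -(sz * sx) := by
  ext i j; fin_cases i <;> fin_cases j <;> simp [sx, sz]

/-- the octonionic family with integer entries -/
def octZ : Fin 7 → Matrix (Fin 8) (Fin 8) ℤ :=
  ![!![0, -1, 0, 0, 0, 0, 0, 0; 1, 0, 0, 0, 0, 0, 0, 0; 0, 0, 0, -1, 0, 0, 0, 0; 0, 0, 1, 0, 0, 0, 0, 0; 0, 0, 0, 0, 0, -1, 0, 0; 0, 0, 0, 0, 1, 0, 0, 0; 0, 0, 0, 0, 0, 0, 0, 1; 0, 0, 0, 0, 0, 0, -1, 0],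
    !![0, 0, -1, 0, 0, 0, 0, 0; 0, 0, 0, 1, 0, 0, 0, 0; 1, 0, 0, 0, 0, 0, 0, 0; 0, -1, 0, 0, 0, 0, 0, 0; 0, 0, 0, 0, 0, 0, -1, 0; 0, 0, 0, 0, 0, 0, 0, -1; 0, 0, 0, 0, 1, 0, 0, 0; 0, 0, 0, 0, 0, 1, 0, 0],
    !![0, 0, 0, -1, 0, 0, 0, 0; 0, 0, -1, 0, 0, 0, 0, 0; 0, 1, 0, 0, 0, 0, 0, 0; 1, 0, 0, 0, 0, 0, 0, 0; 0, 0, 0, 0, 0, 0, 0, -1; 0, 0, 0, 0, 0, 0, 1, 0; 0, 0, 0, 0, 0, -1, 0, 0; 0, 0, 0, 0, 1, 0, 0, 0],
    !![0, 0, 0, 0, -1, 0, 0, 0; 0, 0, 0, 0, 0, 1, 0, 0; 0, 0, 0, 0, 0, 0, 1, 0; 0, 0, 0, 0, 0, 0, 0, 1; 1, 0, 0, 0, 0, 0, 0, 0; 0, -1, 0, 0, 0, 0, 0, 0; 0, 0, -1, 0, 0, 0, 0, 0; 0, 0, 0, -1, 0, 0, 0, 0],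
    !![0, 0, 0, 0, 0, -1, 0, 0; 0, 0, 0, 0, -1, 0, 0, 0; 0, 0, 0, 0, 0, 0, 0, 1; 0, 0, 0, 0, 0, 0, -1, 0; 0, 1, 0, 0, 0, 0, 0, 0; 1, 0, 0, 0, 0, 0, 0, 0; 0, 0, 0, 1, 0, 0, 0, 0; 0, 0, -1, 0, 0, 0, 0, 0],
    !![0, 0, 0, 0, 0, 0, -1, 0; 0, 0, 0, 0, 0, 0, 0, -1; 0, 0, 0, 0, -1, 0, 0, 0; 0, 0, 0, 0, 0, 1, 0, 0; 0, 0, 1, 0, 0, 0, 0, 0; 0, 0, 0, -1, 0, 0, 0, 0; 1, 0, 0, 0, 0, 0, 0, 0; 0, 1, 0, 0, 0, 0, 0, 0],
    !![0, 0, 0, 0, 0, 0, 0, -1; 0, 0, 0, 0, 0, 0, 1, 0; 0, 0, 0, 0, 0, -1, 0, 0; 0, 0, 0, 0, -1, 0, 0, 0; 0, 0, 0, 1, 0, 0, 0, 0; 0, 0, 1, 0, 0, 0, 0, 0; 0, -1, 0, 0, 0, 0, 0, 0; 1, 0, 0, 0, 0, 0, 0, 0]]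

/-- the quaternionic family with integer entries -/
def quatZ : Fin 3 → Matrix (Fin 4) (Fin 4) ℤ :=
  ![!![0, -1, 0, 0; 1, 0, 0, 0; 0, 0, 0, -1; 0, 0, 1, 0],
    !![0, 0, -1, 0; 0, 0, 0, 1; 1, 0, 0, 0; 0, -1, 0, 0],
    !![0, 0, 0, -1; 0, 0, -1, 0; 0, 1, 0, 0; 1, 0, 0, 0]]

theorem octZ_skew : ∀ l, (octZ l)ᵀ = -octZ l := by decide +kernel

theorem octZ_sq : ∀ l, octZ l * octZ l = -1 := by decide +kernel

theorem octZ_anti : ∀ l l', l ≠ l' → octZ l * octZ l' = -(octZ l' * octZ l) := by decide +kernel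

theorem quatZ_skew : ∀ l, (quatZ l)ᵀ = -quatZ l := by decide +kernel

theorem quatZ_sq : ∀ l, quatZ l * quatZ l = -1 := by decide +kernel

theorem quatZ_anti : ∀ l l', l ≠ l' → quatZ l * quatZ l' = -(quatZ l' * quatZ l) := by
  decide +kernel

/-- real families from integral families -/
def ofInt {L ι : Type} [Fintype ι] [DecidableEq ι] (J : L → Matrix ι ι ℤ)
    (h1 : ∀ l, (J l)ᵀ = -J l) (h2 : ∀ l, J l * J l = -1)
    (h3 : ∀ l l', l ≠ l' → J l * J l' = -(J l' * J l)) : Skew L ι where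
  J := fun l => (Int.castRingHom ℝ).mapMatrix (J l)
  skew := fun l => by
    have := congrArg (Int.castRingHom ℝ).mapMatrix (h1 l)
    rw [map_neg] at this
    rw [← this]
    rfl
  sq := fun l => by rw [← map_mul, h2, map_neg, map_one]
  anti := fun l l' h => by rw [← map_mul, ← map_mul, h3 l l' h, map_neg]

/-- the octonionic family -/
def skew8 : Skew (Fin 7) (Fin 8) := ofInt octZ octZ_skew octZ_sq octZ_anti

/-- the quaternionic family -/
def skew4 : Skew (Fin 3) (Fin 4) := ofInt quatZ quatZ_skew quatZ_sq quatZ_anti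

/-- the family with `8` members of order `16` -/
def skew16 : Skew (Fin 7 ⊕ Fin 1) (Fin 8 × Fin 2) :=
  skew8.tensor skew2 sz sz_transpose sz_sq (fun _ => sz_ep)

/-- the symmetric matrix which anticommutes with `skew16` -/
def omega : Matrix (Fin 8 × Fin 2) (Fin 8 × Fin 2) ℝ := 1 ⊗ₖ sx

theorem omega_transpose : omegaᵀ = omega := by
  rw [omega, transpose_kron, transpose_one, sx_transpose]

theorem omega_sq : omega * omega = 1 := by
  rw [omega, ← mul_kronecker_mul, sx_sq, one_mul, one_kronecker_one]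

theorem omega_anti (l : Fin 7 ⊕ Fin 1) : omega * skew16.J l = -(skew16.J l * omega) := by
  rcases l with l | l
  · change (1 ⊗ₖ sx) * (skew8.J l ⊗ₖ sz) = -((skew8.J l ⊗ₖ sz) * (1 ⊗ₖ sx))
    rw [← mul_kronecker_mul, ← mul_kronecker_mul, one_mul, mul_one, sx_sz, kron_neg]
  · change (1 ⊗ₖ sx) * ((1 : Matrix (Fin 8) (Fin 8) ℝ) ⊗ₖ ep) = -((1 ⊗ₖ ep) * (1 ⊗ₖ sx))
    rw [← mul_kronecker_mul, ← mul_kronecker_mul, one_mul, sx_ep, kron_neg]

/-- `l` anticommuting skew matrices of order `m` and square `-1` exist -/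
def HasSkew (l m : ℕ) : Prop := Nonempty (Skew (Fin l) (Fin m))

theorem hasSkew_of {L ι : Type} [Fintype L] [Fintype ι] [DecidableEq ι] (S : Skew L ι) {l m : ℕ}
    (hl : l ≤ Fintype.card L) (hm : Fintype.card ι = m) : HasSkew l m := by
  let f : Fin l ↪ L := (Fin.castLEEmb hl).trans (Fintype.equivFin L).symm.toEmbedding
  let e : Fin m ≃ ι := (Fintype.equivFinOfCardEq hm).symm
  exact ⟨(S.comp f).reindex e⟩

theorem hasSkew_zero (m : ℕ) : HasSkew 0 m :=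
  ⟨⟨fun l => l.elim0, fun l => l.elim0, fun l => l.elim0, fun l => l.elim0⟩⟩

theorem HasSkew.mono {l l' m : ℕ} (h : HasSkew l m) (hl : l' ≤ l) : HasSkew l' m := by
  obtain ⟨S⟩ := h
  exact hasSkew_of S (by simpa using hl) (by simp)

theorem HasSkew.mul {l m : ℕ} (h : HasSkew l m) (n : ℕ) : HasSkew l (m * n) := by
  obtain ⟨S⟩ := h
  let E : Skew (Fin 0) (Fin n) :=
    ⟨fun l => l.elim0, fun l => l.elim0, fun l => l.elim0, fun l => l.elim0⟩
  exact hasSkew_of (S.tensor E 1 transpose_one (one_mul 1) (fun l => l.elim0)) (by simp) (by simp)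

theorem HasSkew.period {l m : ℕ} (h : HasSkew l m) : HasSkew (l + 8) (m * 16) := by
  obtain ⟨S⟩ := h
  exact hasSkew_of (S.tensor skew16 omega omega_transpose omega_sq omega_anti) (by simp) (by simp)

theorem hasSkew_base (b : ℕ) (hb : b < 4) : HasSkew (2 ^ b - 1) (2 ^ b) := by
  interval_cases b
  · exact hasSkew_zero 1
  · exact ⟨skew2⟩
  · exact ⟨skew4⟩
  · exact ⟨skew8⟩

theorem hasSkew_pow (a b : ℕ) (hb : b < 4) :
    HasSkew (8 * a + (2 ^ b - 1)) (2 ^ (4 * a + b)) := by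
  induction a with
  | zero => simpa using hasSkew_base b hb
  | succ a ih =>
    have h := ih.period
    have h1 : 8 * (a + 1) + (2 ^ b - 1) = 8 * a + (2 ^ b - 1) + 8 := by ring
    have h2 : 2 ^ (4 * (a + 1) + b) = 2 ^ (4 * a + b) * 16 := by
      rw [show 4 * (a + 1) + b = (4 * a + b) + 4 by ring, pow_add]
      norm_num
    rw [h1, h2]
    exact h

/-- the Hurwitz–Radon number: `8 a + 2 ^ b` for `m = 2 ^ (4 a + b) · odd`, `0 ≤ b ≤ 3` -/
def hurwitzRadon (m : ℕ) : ℕ := 8 * (padicValNat 2 m / 4) + 2 ^ (padicValNat 2 m % 4)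

theorem hasSkew_hurwitzRadon (m : ℕ) : HasSkew (hurwitzRadon m - 1) m := by
  set t := padicValNat 2 m with ht
  obtain ⟨n, hn⟩ : 2 ^ t ∣ m := pow_padicValNat_dvd
  have h := (hasSkew_pow (t / 4) (t % 4) (Nat.mod_lt _ (by norm_num))).mul n
  have h1 : 4 * (t / 4) + t % 4 = t := Nat.div_add_mod t 4
  rw [h1, ← hn] at h
  refine h.mono ?_
  have h2 : 1 ≤ 2 ^ (t % 4) := Nat.one_le_two_pow
  unfold hurwitzRadon
  rw [← ht]
  omega

end Pool.Agent.H44.HR
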