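import Pool.Agent.H44.Cyl.HR4
import Pool.Agent.H44.Cyl.HR5

set_option autoImplicit false
set_option linter.unusedSectionVars false

/-!
# Normed pairings from Hurwitz–Radon families, and the resulting upper bound
-/

namespace Pool.Agent.H44.HR

open MeasureTheory Set Metric Module Filter Topology Matrix
open scoped ENNReal Real Pointwise
open Pool.Agent.H52R3.Cyl
open Pool.Agent.H52R3.CylDef

namespace Skew

variable {l m : ℕ} (S : Skew (Fin l) (Fin m))

/-- the matrix `a₀ + Σ a_i J_i` -/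
def M (a : Fin (l + 1) → ℝ) : Matrix (Fin m) (Fin m) ℝ := a 0 • 1 + ∑ i, a i.succ • S.J i

theorem M_add (a a' : Fin (l + 1) → ℝ) : S.M (a + a') = S.M a + S.M a' := by
  simp only [M, Pi.add_apply, add_smul, Finset.sum_add_distrib]
  abel

theorem M_smul (c : ℝ) (a : Fin (l + 1) → ℝ) : S.M (c • a) = c • S.M a := by
  simp only [M, Pi.smul_apply, smul_eq_mul, mul_smul, smul_add, Finset.smul_sum]

theorem sum_sq (a : Fin l → ℝ) :
    (∑ i, a i • S.J i) * (∑ i, a i • S.J i) = -((∑ i, a i ^ 2) • 1) := by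
  have h1 : (∑ i, a i • S.J i) * (∑ i, a i • S.J i) =
      ∑ i, ∑ j, (a i * a j) • (S.J i * S.J j) := by
    rw [Finset.sum_mul_sum]
    refine Finset.sum_congr rfl fun i _ => Finset.sum_congr rfl fun j _ => ?_
    rw [smul_mul_assoc, mul_smul_comm, smul_smul]
  have h2 : (∑ i, a i • S.J i) * (∑ i, a i • S.J i) =
      ∑ i, ∑ j, (a i * a j) • (S.J j * S.J i) := by
    rw [h1, Finset.sum_comm]
    refine Finset.sum_congr rfl fun i _ => Finset.sum_congr rfl fun j _ => ?_
    rw [mul_comm (a j)]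
  have h3 : (2 : ℝ) • ((∑ i, a i • S.J i) * (∑ i, a i • S.J i)) =
      (2 : ℝ) • (-((∑ i, a i ^ 2) • (1 : Matrix (Fin m) (Fin m) ℝ))) := by
    rw [two_smul]
    nth_rw 1 [h1]
    rw [h2, ← Finset.sum_add_distrib]
    simp_rw [← Finset.sum_add_distrib, ← smul_add]
    have h4 : ∀ i j, (a i * a j) • (S.J i * S.J j + S.J j * S.J i) =
        if i = j then (-(2 * a i ^ 2)) • (1 : Matrix (Fin m) (Fin m) ℝ) else 0 := by
      intro i j
      by_cases h : i = j
      · subst h
        rw [if_pos rfl, S.sq, ← two_smul ℝ (-1 : Matrix (Fin m) (Fin m) ℝ), smul_neg, smul_neg,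
          neg_smul, smul_smul]
        congr 2
        ring
      · rw [if_neg h, S.anti i j h, neg_add_cancel, smul_zero]
    simp_rw [h4]
    simp only [Finset.sum_ite_eq, Finset.mem_univ, if_true]
    rw [← Finset.sum_smul, Finset.sum_neg_distrib, ← Finset.mul_sum, neg_smul, smul_neg, smul_smul]
  exact smul_right_injective _ (two_ne_zero (α := ℝ)) h3

theorem M_sq (a : Fin (l + 1) → ℝ) : (S.M a)ᵀ * S.M a = (∑ i, a i ^ 2) • 1 := by
  have h1 : (S.M a)ᵀ = a 0 • 1 - ∑ i, a (Fin.succ i) • S.J i := by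
    rw [M, transpose_add, transpose_smul, transpose_one, transpose_sum, sub_eq_add_neg,
      ← Finset.sum_neg_distrib]
    congr 1
    refine Finset.sum_congr rfl fun i _ => ?_
    rw [transpose_smul, S.skew, smul_neg]
  rw [h1, M, sub_mul, mul_add, mul_add, S.sum_sq (fun i => a i.succ), Fin.sum_univ_succ, add_smul]
  simp only [smul_mul_assoc, one_mul, mul_smul_comm, mul_one, smul_smul, Algebra.mul_smul_comm]
  rw [pow_two]
  abel

theorem dot_M (a : Fin (l + 1) → ℝ) (q : Fin m → ℝ) :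
    (S.M a *ᵥ q) ⬝ᵥ (S.M a *ᵥ q) = (∑ i, a i ^ 2) * (q ⬝ᵥ q) := by
  rw [dotProduct_mulVec, ← mulVec_transpose, mulVec_mulVec, S.M_sq, smul_mulVec, one_mulVec,
    smul_dotProduct, smul_eq_mul]

/-- the pairing of Euclidean spaces -/
noncomputable def pair : EuclideanSpace ℝ (Fin m) →ₗ[ℝ] EuclideanSpace ℝ (Fin (l + 1)) →ₗ[ℝ]
    EuclideanSpace ℝ (Fin m) :=
  LinearMap.mk₂ ℝ (fun q a => WithLp.toLp 2 (S.M a.ofLp *ᵥ q.ofLp))
    (fun q q' a => by rw [WithLp.ofLp_add, mulVec_add, WithLp.toLp_add])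
    (fun c q a => by rw [WithLp.ofLp_smul, mulVec_smul, WithLp.toLp_smul])
    (fun q a a' => by rw [WithLp.ofLp_add, S.M_add, add_mulVec, WithLp.toLp_add])
    (fun c q a => by rw [WithLp.ofLp_smul, S.M_smul, smul_mulVec, WithLp.toLp_smul])

theorem pair_apply (q : EuclideanSpace ℝ (Fin m)) (a : EuclideanSpace ℝ (Fin (l + 1))) :
    S.pair q a = WithLp.toLp 2 (S.M a.ofLp *ᵥ q.ofLp) := rfl

theorem norm_pair (q : EuclideanSpace ℝ (Fin m)) (a : EuclideanSpace ℝ (Fin (l + 1))) :
    ‖S.pair q a‖ = ‖q‖ * ‖a‖ := by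
  have h1 : ‖S.pair q a‖ ^ 2 = (‖q‖ * ‖a‖) ^ 2 := by
    have h2 := S.dot_M a.ofLp q.ofLp
    rw [mul_pow, EuclideanSpace.real_norm_sq_eq, EuclideanSpace.real_norm_sq_eq,
      EuclideanSpace.real_norm_sq_eq, mul_comm]
    simp only [dotProduct] at h2
    simp only [pow_two] at h2 ⊢
    exact h2
  exact (pow_left_inj₀ (norm_nonneg _) (by positivity) two_ne_zero).mp h1

end Skew

variable {E : Type*} [NormedAddCommGroup E] [InnerProductSpace ℝ E] [FiniteDimensional ℝ E]

/-- the pairing carried to subspaces of the right dimensions -/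
noncomputable def pairingOf {l m : ℕ} (S : Skew (Fin l) (Fin m)) {W : Submodule ℝ E}
    {U : Submodule ℝ Wᗮ} (hW : finrank ℝ W = l + 1) (hU : finrank ℝ U = m) : Pairing W U where
  β := LinearMap.mk₂ ℝ (fun q a =>
      ((stdOrthonormalBasis ℝ U).reindex (finCongr hU)).repr.symm
        (S.pair (((stdOrthonormalBasis ℝ U).reindex (finCongr hU)).repr q)
          (((stdOrthonormalBasis ℝ W).reindex (finCongr hW)).repr a)))
    (fun q q' a => by simp only [map_add, LinearMap.add_apply])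
    (fun c q a => by simp only [map_smul, LinearMap.smul_apply])
    (fun q a a' => by simp only [map_add])
    (fun c q a => by simp only [map_smul])
  norm_β := fun q a => by
    rw [LinearMap.mk₂_apply, LinearIsometryEquiv.norm_map, S.norm_pair,
      LinearIsometryEquiv.norm_map, LinearIsometryEquiv.norm_map]

variable [MeasurableSpace E] [BorelSpace E]

/-- the upper bound for `c(d,k)` from `k - 1` anticommuting matrices of order `m ≤ d - k` -/
theorem good_le_of_hasSkew {l m : ℕ} (h : HasSkew l m) (hm : 0 < m)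
    (hd : l + 1 + m ≤ finrank ℝ E) {c : ℝ} (hc : c ∈ Good E (l + 1)) :
    c ≤ kap (l + 1 + m) / aa (l + 1 + m) (l + 1) := by
  obtain ⟨S⟩ := h
  obtain ⟨W, hW⟩ := exists_submodule (V := E) (l + 1) (by omega)
  have h1 := W.finrank_add_finrank_orthogonal
  obtain ⟨U, hU⟩ := exists_submodule (V := Wᗮ) m (by omega)
  have h2 := (pairingOf S hW hU).good_le (by omega) (by omega) (c := c) (by rw [hW]; exact hc)
  rw [hW, hU] at h2
  exact h2

end Pool.Agent.H44.HR
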