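import Pool.Agent.H44.Cyl.HR6

set_option autoImplicit false
set_option linter.unusedSectionVars false

/-!
# Gamma estimates and divisibility
-/

namespace Pool.Agent.H44.HR

open Real Filter Topology

theorem gamma_ge {x s : ℝ} (hx : 0 < x) (hs : 0 ≤ s) :
    Gamma (x + 1) * x ^ s ≤ Gamma (x + 1 + s) := by
  rcases hs.eq_or_lt with rfl | hs
  · simp
  have hG : 0 < Gamma x := Gamma_pos_of_pos hx
  have hG1 : 0 < Gamma (x + 1) := Gamma_pos_of_pos (by linarith)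
  have hG2 : 0 < Gamma (x + 1 + s) := Gamma_pos_of_pos (by linarith)
  have h1s : 0 < 1 + s := by linarith
  have h1 := Gamma_mul_add_mul_le_rpow_Gamma_mul_rpow_Gamma (s := x) (t := x + 1 + s)
    (a := s / (1 + s)) (b := 1 / (1 + s)) hx (by linarith) (by positivity) (by positivity)
    (by field_simp; ring)
  have h2 : s / (1 + s) * x + 1 / (1 + s) * (x + 1 + s) = x + 1 := by
    field_simp
    ring
  rw [h2] at h1
  have h3 := rpow_le_rpow hG1.le h1 h1s.le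
  rw [mul_rpow (by positivity) (by positivity), ← rpow_mul hG.le, ← rpow_mul hG2.le] at h3
  have h4 : s / (1 + s) * (1 + s) = s := by field_simp
  have h5 : 1 / (1 + s) * (1 + s) = 1 := by field_simp
  rw [h4, h5, rpow_one, rpow_add hG1, rpow_one] at h3
  have h6 : Gamma (x + 1) = x * Gamma x := Gamma_add_one hx.ne'
  have h7 : Gamma (x + 1) ^ s = x ^ s * Gamma x ^ s := by rw [h6, mul_rpow hx.le hG.le]
  rw [h7] at h3
  have h8 : 0 < Gamma x ^ s := by positivity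
  have h9 : (Gamma (x + 1) * x ^ s) * Gamma x ^ s ≤ Gamma (x + 1 + s) * Gamma x ^ s := by
    calc (Gamma (x + 1) * x ^ s) * Gamma x ^ s = Gamma (x + 1) * (x ^ s * Gamma x ^ s) := by ring
      _ ≤ Gamma x ^ s * Gamma (x + 1 + s) := h3
      _ = _ := mul_comm _ _
  exact le_of_mul_le_mul_right h9 h8

theorem gamma_le {x s : ℝ} (hx : 0 < x) (hs : 0 ≤ s) :
    Gamma (x + 1 + s) ≤ Gamma (x + 1) * (x + 1 + s) ^ s := by
  rcases hs.eq_or_lt with rfl | hs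
  · simp
  have hG1 : 0 < Gamma (x + 1) := Gamma_pos_of_pos (by linarith)
  have hG2 : 0 < Gamma (x + 1 + s) := Gamma_pos_of_pos (by linarith)
  have h1s : 0 < 1 + s := by linarith
  have hy : 0 < x + 1 + s := by linarith
  have h1 := Gamma_mul_add_mul_le_rpow_Gamma_mul_rpow_Gamma (s := x + 1) (t := x + 1 + s + 1)
    (a := 1 / (1 + s)) (b := s / (1 + s)) (by linarith) (by linarith) (by positivity)
    (by positivity) (by field_simp)
  have h2 : 1 / (1 + s) * (x + 1) + s / (1 + s) * (x + 1 + s + 1) = x + 1 + s := by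
    field_simp
    ring
  rw [h2] at h1
  have h3 := rpow_le_rpow hG2.le h1 h1s.le
  have hG3 : 0 < Gamma (x + 1 + s + 1) := Gamma_pos_of_pos (by linarith)
  rw [mul_rpow (by positivity) (by positivity), ← rpow_mul hG1.le, ← rpow_mul hG3.le] at h3
  have h4 : s / (1 + s) * (1 + s) = s := by field_simp
  have h5 : 1 / (1 + s) * (1 + s) = 1 := by field_simp
  rw [h4, h5, rpow_one, rpow_add hG2, rpow_one, Gamma_add_one hy.ne',
    mul_rpow hy.le hG2.le] at h3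
  have h8 : 0 < Gamma (x + 1 + s) ^ s := by positivity
  have h9 : Gamma (x + 1 + s) * Gamma (x + 1 + s) ^ s ≤
      (Gamma (x + 1) * (x + 1 + s) ^ s) * Gamma (x + 1 + s) ^ s := by
    calc _ ≤ Gamma (x + 1) * ((x + 1 + s) ^ s * Gamma (x + 1 + s) ^ s) := h3
      _ = _ := by ring
  exact le_of_mul_le_mul_right h9 h8

/-- `Γ(k/2) Γ((d-k)/2+1) / Γ(d/2)` -/
noncomputable def gammaBound (d k : ℕ) : ℝ :=
  Gamma (k / 2) * Gamma ((d - k) / 2 + 1) / Gamma (d / 2)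

theorem gammaBound_ge {d k : ℕ} (hk : 2 ≤ k) (hkd : k < d) :
    Gamma (k / 2) * (2 / d) ^ ((k : ℝ) / 2 - 1) ≤ gammaBound d k := by
  have hk' : (2 : ℝ) ≤ k := by exact_mod_cast hk
  have hkd' : (k : ℝ) < d := by exact_mod_cast hkd
  have h1 := gamma_le (x := ((d : ℝ) - k) / 2) (s := (k : ℝ) / 2 - 1) (by linarith) (by linarith)
  have h2 : ((d : ℝ) - k) / 2 + 1 + ((k : ℝ) / 2 - 1) = d / 2 := by ring
  rw [h2] at h1
  have hGd : 0 < Gamma ((d : ℝ) / 2) := Gamma_pos_of_pos (by linarith)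
  have hGk : 0 < Gamma ((k : ℝ) / 2) := Gamma_pos_of_pos (by linarith)
  have hd : (0 : ℝ) < d := by linarith
  unfold gammaBound
  rw [le_div_iff₀ hGd]
  have h3 : (2 / (d : ℝ)) ^ ((k : ℝ) / 2 - 1) * ((d : ℝ) / 2) ^ ((k : ℝ) / 2 - 1) = 1 := by
    rw [← mul_rpow (by positivity) (by positivity)]
    have : 2 / (d : ℝ) * ((d : ℝ) / 2) = 1 := by field_simp
    rw [this, one_rpow]
  calc Gamma (k / 2) * (2 / d) ^ ((k : ℝ) / 2 - 1) * Gamma (d / 2)
      ≤ Gamma (k / 2) * (2 / d) ^ ((k : ℝ) / 2 - 1) *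
        (Gamma (((d : ℝ) - k) / 2 + 1) * ((d : ℝ) / 2) ^ ((k : ℝ) / 2 - 1)) := by gcongr
    _ = Gamma (k / 2) * Gamma (((d : ℝ) - k) / 2 + 1) *
        ((2 / (d : ℝ)) ^ ((k : ℝ) / 2 - 1) * ((d : ℝ) / 2) ^ ((k : ℝ) / 2 - 1)) := by ring
    _ = _ := by rw [h3, mul_one]

theorem gammaBound_le {k m : ℕ} (hk : 2 ≤ k) (hm : 0 < m) :
    gammaBound (k + m) k ≤ Gamma (k / 2) * (2 / m) ^ ((k : ℝ) / 2 - 1) := by
  have hk' : (2 : ℝ) ≤ k := by exact_mod_cast hk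
  have hm' : (0 : ℝ) < m := by exact_mod_cast hm
  have h1 := gamma_ge (x := (m : ℝ) / 2) (s := (k : ℝ) / 2 - 1) (by linarith) (by linarith)
  have h2 : (m : ℝ) / 2 + 1 + ((k : ℝ) / 2 - 1) = ((k + m : ℕ) : ℝ) / 2 := by push_cast; ring
  rw [h2] at h1
  have h3 : (((k + m : ℕ) : ℝ) - k) / 2 + 1 = (m : ℝ) / 2 + 1 := by push_cast; ring
  have hGd : 0 < Gamma (((k + m : ℕ) : ℝ) / 2) := Gamma_pos_of_pos (by positivity)
  have hGk : 0 < Gamma ((k : ℝ) / 2) := Gamma_pos_of_pos (by linarith)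
  unfold gammaBound
  rw [div_le_iff₀ hGd, h3]
  have h4 : (2 / (m : ℝ)) ^ ((k : ℝ) / 2 - 1) * ((m : ℝ) / 2) ^ ((k : ℝ) / 2 - 1) = 1 := by
    rw [← mul_rpow (by positivity) (by positivity)]
    have : 2 / (m : ℝ) * ((m : ℝ) / 2) = 1 := by field_simp
    rw [this, one_rpow]
  calc Gamma (k / 2) * Gamma ((m : ℝ) / 2 + 1)
      = Gamma (k / 2) * (2 / m) ^ ((k : ℝ) / 2 - 1) *
        (Gamma ((m : ℝ) / 2 + 1) * ((m : ℝ) / 2) ^ ((k : ℝ) / 2 - 1)) := by
        rw [show Gamma (k / 2) * (2 / m) ^ ((k : ℝ) / 2 - 1) *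
          (Gamma ((m : ℝ) / 2 + 1) * ((m : ℝ) / 2) ^ ((k : ℝ) / 2 - 1)) =
          Gamma (k / 2) * Gamma ((m : ℝ) / 2 + 1) *
          ((2 / (m : ℝ)) ^ ((k : ℝ) / 2 - 1) * ((m : ℝ) / 2) ^ ((k : ℝ) / 2 - 1)) by ring, h4,
          mul_one]
    _ ≤ _ := by gcongr

theorem le_hurwitzRadon {k t m : ℕ} (hm : m ≠ 0) (h : 2 ^ t ∣ m) (hk : k ≤ 2 * t) :
    k ≤ hurwitzRadon m := by
  have h1 : t ≤ padicValNat 2 m := by
    rwa [← padicValNat_dvd_iff_le hm]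
  unfold hurwitzRadon
  set v := padicValNat 2 m
  have h2 := Nat.div_add_mod v 4
  have h3 : v % 4 < 4 := Nat.mod_lt _ (by norm_num)
  have h4 : 2 * (v % 4) ≤ 2 ^ (v % 4) := by
    generalize v % 4 = b at h3
    interval_cases b <;> norm_num
  omega

end Pool.Agent.H44.HR
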